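import Pool.Agent.Run7.h47.SD.Iface

/-!
# Project SD (helper47), part FIN: the theorem from the gap
-/

set_option autoImplicit false

namespace Pool.Agent.Run7.h712.SD

open MeasureTheory Filter Pool.Agent.W792.LL Pool.Agent.W792.WA Pool.Agent.N659.HB
open ProbabilityTheory Pool.Agent.Run7.h47.SD
open scoped Topology ENNReal

noncomputable section

theorem coef {d : ℕ} (n x : Fin d → ℤ) :
    UnitAddTorus.mFourierCoeff (UnitAddTorus.mFourier n) x = if x = n then 1 else 0 := by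
  classical
  have h0 : UnitAddTorus.mFourierCoeff (UnitAddTorus.mFourier n) x =
      UnitAddTorus.mFourierBasis.repr (UnitAddTorus.mFourierBasis n) x := by
    rw [UnitAddTorus.mFourierBasis_repr, UnitAddTorus.coe_mFourierBasis]
    exact (UnitAddTorus.mFourierCoeff_toLp _ _).symm
  rw [h0, HilbertBasis.repr_self, lp.single_apply]
  by_cases h : x = n
  · subst h
    simp
  · rw [if_neg h]
    simp [h]

theorem wn_mF {d : ℕ} (n : Fin d → ℤ) : Wn (UnitAddTorus.mFourier n) 1 := by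
  intro F
  simp only [coef]
  calc ∑ x ∈ F, ‖(if x = n then (1 : ℂ) else 0)‖ = ∑ x ∈ F, (if x = n then (1 : ℝ) else 0) := by
        refine Finset.sum_congr rfl fun x _ => ?_
        split_ifs <;> simp
    _ = if n ∈ F then 1 else 0 := by rw [Finset.sum_ite_eq' F n]
    _ ≤ 1 := by split_ifs <;> norm_num

theorem wn_sum (hW : S_WAL) {d : ℕ} {ι : Type} (s : Finset ι) (f : ι → C(UnitAddTorus (Fin d), ℂ)) (β : ι → ℝ)
    (h : ∀ i ∈ s, Wn (f i) (β i)) : Wn (∑ i ∈ s, f i) (∑ i ∈ s, β i) := by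
  classical
  induction s using Finset.induction_on with
  | empty =>
    rw [Finset.sum_empty, Finset.sum_empty]
    have h1 := (hW d).1 0
    rw [norm_zero] at h1
    have h2 : ct d 0 = 0 := by
      ext k
      rfl
    rwa [h2] at h1
  | insert a s ha ih =>
    rw [Finset.sum_insert ha, Finset.sum_insert ha]
    exact (hW d).2.2.1 _ _ _ _ (h a (Finset.mem_insert_self a s)) (ih fun i hi => h i (Finset.mem_insert_of_mem hi))

theorem adj_eq {d : ℕ} (γ a : ℝ) (z : ℂ) :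
    (toC (fun k => ((((γ • (adjm d - ContinuousMap.const _ (-a)) : C(UnitAddTorus (Fin d), ℝ)) k : ℝ) : ℂ) - z)) :
      C(UnitAddTorus (Fin d), ℂ)) =
    (γ : ℂ) • (∑ i : Fin d, (UnitAddTorus.mFourier (Pi.single i 1) + UnitAddTorus.mFourier (-(Pi.single i 1)))) +
      ct d (γ * a - z) := by
  classical
  have hc : Continuous fun k : UnitAddTorus (Fin d) =>
      ((((γ • (adjm d - ContinuousMap.const _ (-a)) : C(UnitAddTorus (Fin d), ℝ)) k : ℝ) : ℂ) - z) := by
    fun_prop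
  unfold toC
  rw [dif_pos hc]
  ext k
  simp only [ct, adjm, lap, ContinuousMap.coe_mk, ContinuousMap.add_apply, ContinuousMap.smul_apply, ContinuousMap.sum_apply,
    ContinuousMap.sub_apply, ContinuousMap.const_apply, UnitAddTorus.mFourier_neg, UnitAddTorus.mFourier_single, Complex.add_conj,
    smul_eq_mul]
  push_cast
  rw [Finset.sum_sub_distrib, Finset.sum_const, Finset.card_univ, Fintype.card_fin, nsmul_eq_mul]
  ring

theorem wn_K (hW : S_WAL) {d : ℕ} {γ a : ℝ} (hγ : 0 < γ) (ha : 0 < a) {z : ℂ} (hz : z ∈ Zs d) :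
    Wn (toC (fun k => ((((γ • (adjm d - ContinuousMap.const _ (-a)) : C(UnitAddTorus (Fin d), ℝ)) k : ℝ) : ℂ) - z)) :
      C(UnitAddTorus (Fin d), ℂ)) (γ * (2 * d) + (γ * a + (4 * d + 1))) := by
  rw [adj_eq]
  have h1 : Wn (∑ i : Fin d, (UnitAddTorus.mFourier (Pi.single i 1) + UnitAddTorus.mFourier (-(Pi.single i 1 : Fin d → ℤ))))
      (∑ _i : Fin d, (1 + 1 : ℝ)) := wn_sum hW _ _ _ fun i _ => (hW d).2.2.1 _ _ _ _ (wn_mF _) (wn_mF _)
  have h2 : (∑ _i : Fin d, (1 + 1 : ℝ)) = 2 * d := by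
    rw [Finset.sum_const, Finset.card_univ, Fintype.card_fin, nsmul_eq_mul]
    ring
  rw [h2] at h1
  have h3 := (hW d).2.1 _ (γ : ℂ) _ h1
  have h4 : ‖(γ : ℂ)‖ = γ := by rw [Complex.norm_real, Real.norm_of_nonneg hγ.le]
  rw [h4] at h3
  have h5 : ‖(γ * a - z : ℂ)‖ ≤ γ * a + (4 * d + 1) := by
    have h6 : ‖z‖ ≤ 4 * d + 1 := by
      refine (Complex.norm_le_abs_re_add_abs_im z).trans ?_
      rw [abs_of_nonneg hz.1, abs_of_pos hz.2.2.1]
      have := hz.2.1
      have := hz.2.2.2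
      linarith
    refine (norm_sub_le _ _).trans ?_
    have h7 : ‖(γ * a : ℂ)‖ = γ * a := by
      rw [← Complex.ofReal_mul, Complex.norm_real, Real.norm_of_nonneg (by positivity)]
    rw [h7]
    linarith
  have h8 : Wn (ct d (γ * a - z)) (γ * a + (4 * d + 1)) := fun F => ((hW d).1 _ F).trans h5
  exact (hW d).2.2.1 _ _ _ _ h3 h8

/-- **The theorem** from the gap. -/
theorem t_FIN (hG : S_GAPSD) (hWal : S_WAL) (hC : S_CHK) (hAe : S_AEQK) (hAf : S_AFF) (hW : S_WS)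
    (hψ : ∃ ψ : C(UnitAddCircle, ℝ), IsSemi ψ ∧ ∀ d : ℕ, 0 < d → ∃ C : ℝ, 0 < C ∧
      ∀ (M : ℕ) (x : Fin d → ℤ),
      ‖UnitAddTorus.mFourierCoeff (fun k : UnitAddTorus (Fin d) =>
        ((ψ ((M * lap d k / (2 * Real.pi) : ℝ) : UnitAddCircle) : ℝ) : ℂ)) x‖
        ≤ C / (1 + ‖x‖) ^ ((d : ℝ) / 3)) : S_FINSD := by
  intro ν₀ _ hadm
  obtain ⟨C₀, C₁, hC0, hC1, hML⟩ := hadm
  obtain ⟨κ, hκ, hgap⟩ := hG C₁ hC1
  obtain ⟨ψ, hψ1, hψ2⟩ := hψ
  refine ⟨1 + 5 * C₀ / κ, by positivity, fun d hd0 a sg ε ha hsg hε => ?_⟩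
  have hd1 : (1 : ℝ) ≤ d := by exact_mod_cast hd0
  have hd1' : (0 : ℝ) < d := by linarith
  obtain ⟨Cd, hCd, hCd1⟩ := hψ2 d hd0
  have hsg1 : (d : ℝ) + a ≤ sg := by
    refine le_trans ?_ hsg
    have : 0 ≤ 5 * C₀ / κ * (d + a) := by positivity
    linarith
  have hp : 0 < sg := by linarith
  set γ : ℝ := 2 * d / a with hγdef
  have hγ : 0 < γ := by positivity
  have hγa : γ * a = 2 * d := by rw [hγdef]; field_simp
  have hgs : 0 < γ * sg := by positivity
  have hgs1 : 1 ≤ γ * sg := by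
    calc (1 : ℝ) ≤ 2 * d := by linarith
      _ = γ * a := hγa.symm
      _ ≤ γ * sg := by gcongr; linarith
  set l : ℝ := min (1 / (4 * γ)) (min (ε / 2) (ε / (2 * Cd))) with hl
  have hlpos : 0 < l := by
    rw [hl]
    refine lt_min (by positivity) (lt_min (by positivity) (by positivity))
  have hl1 : γ * l ≤ 1 / 4 := by
    calc γ * l ≤ γ * (1 / (4 * γ)) := by gcongr; exact min_le_left _ _
      _ = 1 / 4 := by field_simp
  have hl2 : 2 * l ≤ ε := by
    have : l ≤ ε / 2 := (min_le_right _ _).trans (min_le_left _ _)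
    linarith
  have hl3 : 2 * l * Cd ≤ ε := by
    have h1 : l ≤ ε / (2 * Cd) := (min_le_right _ _).trans (min_le_right _ _)
    rw [le_div_iff₀ (by positivity)] at h1
    linarith
  set m : ℝ := -a with hm
  have hm2 : Measurable fun x : ℝ => (γ * sg) * x := by fun_prop
  have hP2 : IsProbabilityMeasure (ν₀.map fun x => (γ * sg) * x) :=
    Measure.isProbabilityMeasure_map hm2.aemeasurable
  have hA : C₀ / (γ * sg) * ((γ * (2 * d) + (γ * a + (4 * d + 1))) + 2) ≤ κ := by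
    rw [div_mul_eq_mul_div, div_le_iff₀ hgs]
    have h1 : 5 * C₀ / κ * (d + a) ≤ sg := by
      refine le_trans ?_ hsg
      have : 0 ≤ (d + a : ℝ) := by positivity
      linarith
    have h2 : 5 * C₀ * (d + a) ≤ κ * sg := by
      rw [div_mul_eq_mul_div, div_le_iff₀ hκ] at h1
      linarith
    have h3 : (γ * (2 * d) + (γ * a + (4 * d + 1))) + 2 ≤ γ * (5 * (d + a)) := by
      have h4 : γ * (5 * (d + a)) = 5 * (γ * d) + 5 * (γ * a) := by ring
      rw [h4, hγa]
      have h5 : 0 ≤ γ * d := by positivity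
      nlinarith
    calc C₀ * ((γ * (2 * d) + (γ * a + (4 * d + 1))) + 2) ≤ C₀ * (γ * (5 * (d + a))) := by gcongr
      _ = γ * (5 * C₀ * (d + a)) := by ring
      _ ≤ γ * (κ * sg) := by gcongr
      _ = κ * (γ * sg) := by ring
  obtain ⟨hvr, g, hg, hg1⟩ := hgap ψ hψ1 (ν₀.map fun x => (γ * sg) * x) d (C₀ / (γ * sg))
    (γ * (2 * d) + (γ * a + (4 * d + 1))) (γ * l) (γ • (adjm d - ContinuousMap.const _ m)) hd0
    (hML (γ * sg) hgs1) (by positivity) hl1 (by positivity) (fun z hz => wn_K hWal hγ ha hz) hA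
  obtain ⟨b, hb1', hb2⟩ := of_gapK hC hAe hAf hψ1 hd0 (adjm d) ν₀ γ sg l m hγ hp
    hlpos hvr hg (fun ρ' _ hρ z hz s hs => hg1 ρ' hρ z hz s hs)
  set f : C(ℝ, ℝ) := ⟨fun t => 2 * (d : ℝ) - t, by fun_prop⟩ with hf
  have hfl : ∀ k, f (adjm d k) = lap d k := by
    intro k
    simp only [hf, adjm, ContinuousMap.coe_mk, ContinuousMap.sub_apply,
      ContinuousMap.const_apply]
    ring
  refine ⟨b.comp f, fun t => ?_, fun x => ?_, ?_⟩
  · exact (G16.IsSum.bound hψ1.bound hb1' _).trans hl2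
  · have h1 := hW d ψ Cd (2 * l) b hd0 hCd.le (by positivity) hCd1 hb1' x
    have e : (fun k : UnitAddTorus (Fin d) => (((b.comp f) (adjm d k) : ℝ) : ℂ))
        = fun k => ((b (lap d k) : ℝ) : ℂ) := by
      funext k
      rw [ContinuousMap.comp_apply, hfl]
    rw [e]
    refine h1.trans ?_
    gcongr
  · have e3 : m + 4 * d / γ = a := by
      rw [hγdef, hm]; field_simp; ring
    have e4 : (b.comp f).comp (adjm d) = gK b d := by
      ext k
      simp only [gK, ContinuousMap.comp_apply]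
      rw [hfl]
    rw [e4]
    rw [e3] at hb2
    exact hb2

end

end Pool.Agent.Run7.h712.SD
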